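import Pool.Agent.Helper37.KDB.Extra
import Pool.Agent.Helper37.KDB.St.D9
import Pool.Agent.Helper37.KDB.St.D10

/-! Project KDB, piece D16. -/

set_option autoImplicit false

namespace KDB.I.D16

open MeasureTheory KDB

variable (p : Par)

/-- a vector close to a lattice point rounds to this point -/
theorem rd_eq {d : ℕ} (c : ℝ) (hc : 0 < c) (y : V d) (A : Fin d → ℤ)
    (h : ‖y - c • Par.toV A‖ ≤ c / 16) : Par.rd c y = A := by
  funext j
  have h1 : |y j - c * (A j : ℝ)| ≤ c / 16 := by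
    have := (norm_le_pi_norm (y - c • Par.toV A) j).trans h
    simpa [Par.toV, Real.norm_eq_abs] using this
  have h2 : |y j / c - (A j : ℝ)| ≤ 1 / 16 := by
    have e : y j / c - (A j : ℝ) = (y j - c * (A j : ℝ)) / c := by field_simp
    rw [e, abs_div, abs_of_pos hc, div_le_iff₀ hc]
    linarith
  unfold Par.rd
  rw [abs_le] at h2
  have : round (y j / c) = A j := by
    rw [round_eq, Int.floor_eq_iff]
    constructor <;> push_cast <;> linarith [h2.1, h2.2]
  exact this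

theorem key {d : ℕ} (c S : ℝ) (hc : 0 < c) (hS : S ≤ c / 16) (y y' : V d) (A A' : Fin d → ℤ)
    (h : ‖y - c • Par.toV A‖ ≤ S) (h' : ‖y' - c • Par.toV A'‖ ≤ S) (hd : ‖y - y'‖ ≤ c)
    (he : Par.emd 3 (Par.rd c y) = Par.emd 3 (Par.rd c y')) :
    A = A' ∧ ‖y - y'‖ ≤ 2 * S := by
  rw [rd_eq c hc y A (h.trans hS), rd_eq c hc y' A' (h'.trans hS)] at he
  have hA : A = A' := by
    refine eq_of_emd 3 A A' he fun j => ?_
    have h1 : |y j - c * (A j : ℝ)| ≤ c / 16 := by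
      have := ((norm_le_pi_norm (y - c • Par.toV A) j).trans h).trans hS
      simpa [Par.toV, Real.norm_eq_abs] using this
    have h2 : |y' j - c * (A' j : ℝ)| ≤ c / 16 := by
      have := ((norm_le_pi_norm (y' - c • Par.toV A') j).trans h').trans hS
      simpa [Par.toV, Real.norm_eq_abs] using this
    have h3 : |y j - y' j| ≤ c := by
      have := (norm_le_pi_norm (y - y') j).trans hd
      simpa [Real.norm_eq_abs] using this
    have h4 : c * |(A j : ℝ) - A' j| ≤ 9 / 8 * c := by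
      rw [← abs_of_pos hc, ← abs_mul, abs_of_pos hc]
      rw [abs_le] at h1 h2 h3 ⊢
      constructor <;> linarith [h1.1, h1.2, h2.1, h2.2, h3.1, h3.2]
    have h5 : |(A j : ℝ) - A' j| ≤ 9 / 8 := by
      rw [mul_comm] at h4
      exact le_of_mul_le_mul_right h4 hc
    push_cast
    linarith
  refine ⟨hA, ?_⟩
  subst hA
  have e : y - y' = (y - c • Par.toV A) - (y' - c • Par.toV A) := by abel
  rw [e]
  refine (norm_sub_le _ _).trans ?_
  linarith

theorem tcS_close (hp : p.Ok) (om om' : ℕ → Nz p.d) (hv : ∀ j, p.Valid j (om j))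
    (hv' : ∀ j, p.Valid j (om' j)) (i T : ℕ) (hi : i < p.n) (hG : p.Good om i T)
    (hG' : p.Good om' i T) (hc : p.tcS om i T = p.tcS om' i T)
    (h1 : ‖(p.run om (T + p.W i)).2 - (p.run om' (T + p.W i)).2‖ ≤ p.rho (i + 1))
    (h2 : ‖(p.run om (T + p.W i)).1 - (p.run om' (T + p.W i)).1‖ ≤ p.xi (i + 1)) :
    ‖(p.run om (T + p.W i)).2 - (p.run om' (T + p.W i)).2‖ ≤ p.rho i ∧
      ‖(p.run om (T + p.W i)).1 - (p.run om' (T + p.W i)).1‖ ≤ p.xi i := by
  have hLr : (1000 : ℝ) ≤ p.L := by exact_mod_cast hp.hL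
  have hell : 1 ≤ p.ell := Nat.one_le_pow _ _ (by have := hp.hL; omega)
  have hellr : (1 : ℝ) ≤ p.ell := by exact_mod_cast hell
  have hrho : 0 < p.rho i := by unfold Par.rho; positivity
  have hxi : 0 < p.xi i := by unfold Par.xi; positivity
  have hrho1 : p.rho (i + 1) = p.ell * p.rho i := by unfold Par.rho; ring
  have hxi1 : p.xi (i + 1) = p.ell * p.L * p.xi i := by unfold Par.xi; ring
  have hrhop : 0 < p.rho (i + 1) := by unfold Par.rho; positivity
  have hxip : 0 < p.xi (i + 1) := by unfold Par.xi; positivity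
  obtain ⟨A, B, hA, hB⟩ := capture p hp om hv i T hi hG
  obtain ⟨A', B', hA', hB'⟩ := capture p hp om' hv' i T hi hG'
  have hq : p.nring om i (T - p.tau i) (T + p.W i) ≤ p.q := hG.2.2.2.2.2.2
  unfold Par.tcS at hc
  simp only [Prod.mk.injEq] at hc
  obtain ⟨c1, c2, c3, c4, c5⟩ := hc
  rw [← c1] at hA' hB' c4 c5
  set Nw := p.nring om i (T - p.tau i) (T + p.W i) with hNw
  set v := (p.run om (T + p.W i)).2 with hv1
  set v' := (p.run om' (T + p.W i)).2 with hv2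
  set x := (p.run om (T + p.W i)).1 with hx1
  set x' := (p.run om' (T + p.W i)).1 with hx2
  have hR := hp.hR
  have hE : (2 : ℝ) ^ Nw * (8 * p.R + 8 * p.L) ≤ p.ell / 16 := by
    refine le_trans ?_ hp.hRs
    exact mul_le_mul_of_nonneg_right (pow_le_pow_right₀ (by norm_num) hq) (by positivity)
  have hE0 : 0 ≤ (2 : ℝ) ^ Nw * (8 * p.R + 8 * p.L) := by positivity
  have s1 : (2 : ℝ) ^ Nw * (8 * p.R + 8 * p.L) * p.rho i ≤ p.rho (i + 1) / 16 := by
    rw [hrho1]
    nlinarith [mul_le_mul_of_nonneg_right hE hrho.le]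
  have s2 : (2 : ℝ) ^ Nw * (8 * p.R + 8 * p.L) * p.xi i ≤ p.xi (i + 1) / 16 := by
    rw [hxi1]
    have a1 : (2 : ℝ) ^ Nw * (8 * p.R + 8 * p.L) * p.xi i ≤ p.ell / 16 * p.xi i :=
      mul_le_mul_of_nonneg_right hE hxi.le
    have a2 : p.ell / 16 * p.xi i ≤ p.ell * p.L * p.xi i / 16 := by
      have : p.ell * p.xi i * 1 ≤ p.ell * p.xi i * p.L :=
        mul_le_mul_of_nonneg_left (by linarith) (by positivity)
      linarith
    linarith
  obtain ⟨hAA, hvv⟩ := key (p.rho (i + 1)) _ hrhop s1 v v' A A' hA hA' h1 c2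
  subst hAA
  rw [rd_eq _ hrhop v A (hA.trans s1), rd_eq _ hrhop v' A (hA'.trans s1)] at c3
  have hB1 : ‖(x - (p.h * p.W i * p.rho (i + 1)) • Par.toV A) - p.xi (i + 1) • Par.toV B‖ ≤
      2 ^ Nw * (8 * p.R + 8 * p.L) * p.xi i := by
    rw [sub_right_comm]; exact hB
  have hB1' : ‖(x' - (p.h * p.W i * p.rho (i + 1)) • Par.toV A) - p.xi (i + 1) • Par.toV B'‖ ≤
      2 ^ Nw * (8 * p.R + 8 * p.L) * p.xi i := by
    rw [sub_right_comm]; exact hB'
  have h2' : ‖(x - (p.h * p.W i * p.rho (i + 1)) • Par.toV A) -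
      (x' - (p.h * p.W i * p.rho (i + 1)) • Par.toV A)‖ ≤ p.xi (i + 1) := by
    rw [sub_sub_sub_cancel_right]; exact h2
  obtain ⟨-, hxx⟩ := key (p.xi (i + 1)) _ hxip s2 _ _ B B' hB1 hB1' h2' c3
  rw [sub_sub_sub_cancel_right] at hxx
  have hCR : 64 * (p.R + p.L) ≤ (p.CR : ℝ) := Nat.le_ceil _
  have h2N : (1 : ℝ) ≤ 2 ^ Nw := one_le_pow₀ (by norm_num)
  have hfin : 2 * ((2 : ℝ) ^ Nw * (8 * p.R + 8 * p.L)) + 1 < ((p.CR * 2 ^ Nw : ℕ) : ℝ) := by
    push_cast
    have : 64 * (p.R + p.L) * 2 ^ Nw ≤ (p.CR : ℝ) * 2 ^ Nw :=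
      mul_le_mul_of_nonneg_right hCR (by positivity)
    have t : (1000 : ℝ) * 1 ≤ (p.R + p.L) * 2 ^ Nw := by
      apply mul_le_mul _ h2N (by norm_num) (by linarith)
      linarith
    nlinarith
  constructor
  · refine fl_close _ (p.rho i) hrho v v' c4 (lt_of_le_of_lt ?_ hfin)
    have : ‖v - v'‖ / p.rho i ≤ 2 * ((2 : ℝ) ^ Nw * (8 * p.R + 8 * p.L)) := by
      rw [div_le_iff₀ hrho]; linarith
    linarith
  · refine fl_close _ (p.xi i) hxi x x' c5 (lt_of_le_of_lt ?_ hfin)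
    have : ‖x - x'‖ / p.xi i ≤ 2 * ((2 : ℝ) ^ Nw * (8 * p.R + 8 * p.L)) := by
      rw [div_le_iff₀ hxi]; linarith
    linarith

end KDB.I.D16
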